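import Mathlib
import Pool.Agent.H204R3.GP.MTDefs
import Pool.Agent.W516.MT.Defs

/-!
# The group over `ℚ` given by the Hodge classes and the groups over `ℚ_ℓ` given by the Tate classes

`W = H_1(A, ℚ)` is the rational homology of an abelian variety `A` over a number field (or a finitely
generated field) embedded in the complex numbers, `T` the tangent space at the origin, `per : W → T`
the inclusion, `k ⊗ W` with `k = ℚ_ℓ` the rational Tate module with the action `ρ` of the Galois group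
`Γ`, and `χ` the cyclotomic character.
-/

set_option autoImplicit false

namespace Pool.Agent.W2helper74.QF

open TensorProduct Pool.Agent.H204R3.GP Pool.Agent.W516.MTD

variable {W T : Type} [AddCommGroup W] [Module ℚ W] [AddCommGroup T] [Module ℂ T]

/-- The `F`-points of an algebraic group `G` over `ℚ`, for a field `F` of characteristic zero: the
automorphisms `g` of `F ⊗ W` such that for some `ν ≠ 0` in `F` all Hodge classes in the spaces
`(H^1)^{⊗ 2 m}(m)` are multiplied by `ν ^ m`. Here `Φ` is the extension of the rational form `ψ` to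
`F ⊗ W`. The connected component of `G` is the Mumford-Tate group of `A`, because the Mumford-Tate
group is reductive, contains the homotheties, and is determined by its invariants. -/
def HodgeGroup (per : W →+ T) (F : Type) [Field F] [CharZero F] :
    Set ((F ⊗[ℚ] W) ≃ₗ[F] (F ⊗[ℚ] W)) :=
  {g | ∃ ν : F, ν ≠ 0 ∧ ∀ (m : ℕ) (ψ : MultilinearMap ℚ (fun _ : Fin m × Fin 2 => W) ℚ),
    IsHodgeTensor per ψ → ∀ Φ : MultilinearMap F (fun _ : Fin m × Fin 2 => F ⊗[ℚ] W) F,
      (∀ v : Fin m × Fin 2 → W, Φ (fun l => (1 : F) ⊗ₜ[ℚ] v l) = ((ψ v : ℚ) : F)) →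
        ∀ x, Φ (fun l => g (x l)) = ν ^ m * Φ x}

/-- The `F`-points of an algebraic group over `k`, for an extension `F` of `k`: the automorphisms `g` of
`F ⊗ W` such that for some `ν ≠ 0` in `F` all Tate classes in the spaces `(H^1)^{⊗ 2 m}(m)` are
multiplied by `ν ^ m`. For `k = ℚ_ℓ` its connected component is the connected component of the Zariski
closure of the image of the Galois group, because this is reductive (Faltings), contains the homotheties
(Bogomolov), and is determined by its invariants. -/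
def TateGroup {k Γ : Type} [Field k] [CharZero k] [Group Γ] (ρ : Representation k Γ (k ⊗[ℚ] W))
    (χ : Γ →* k) (F : Type) [Field F] [CharZero F] [Algebra k F] :
    Set ((F ⊗[ℚ] W) ≃ₗ[F] (F ⊗[ℚ] W)) :=
  {g | ∃ ν : F, ν ≠ 0 ∧ ∀ (m : ℕ) (φ : MultilinearMap k (fun _ : Fin m × Fin 2 => k ⊗[ℚ] W) k),
    IsTateTensor ρ χ m φ → ∀ Φ : MultilinearMap F (fun _ : Fin m × Fin 2 => F ⊗[ℚ] W) F,
      (∀ v : Fin m × Fin 2 → W, Φ (fun l => (1 : F) ⊗ₜ[ℚ] v l) =
        algebraMap k F (φ fun l => (1 : k) ⊗ₜ[ℚ] v l)) →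
        ∀ x, Φ (fun l => g (x l)) = ν ^ m * Φ x}

/-- The `ℓ`-adic monodromy groups have a common form over `ℚ`, for all prime numbers `ℓ ≥ ℓ₀`: the Tate
classes are the linear combinations over `ℚ_ℓ` of the Hodge classes, which do not depend on `ℓ`, and
the group `TateGroup` over `ℚ_ℓ` is the base change of the group `HodgeGroup` over `ℚ` (the same points
over all extensions `F` of `ℚ_ℓ`). -/
def HasCommonForm {Γ : Type} [Group Γ] (per : W →+ T)
    (ρ : ∀ (ℓ : ℕ) [Fact ℓ.Prime], Representation ℚ_[ℓ] Γ (ℚ_[ℓ] ⊗[ℚ] W))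
    (χ : ∀ (ℓ : ℕ) [Fact ℓ.Prime], Γ →* ℚ_[ℓ]) (ℓ₀ : ℕ) : Prop :=
  ∀ (ℓ : ℕ) [Fact ℓ.Prime], ℓ₀ ≤ ℓ →
    (∀ (m : ℕ) (φ : MultilinearMap ℚ_[ℓ] (fun _ : Fin m × Fin 2 => ℚ_[ℓ] ⊗[ℚ] W) ℚ_[ℓ]),
      IsTateTensor (ρ ℓ) (χ ℓ) m φ ↔ IsHodgeCombination per φ) ∧
    ∀ (F : Type) [Field F] [CharZero F] [Algebra ℚ_[ℓ] F],
      TateGroup (ρ ℓ) (χ ℓ) F = HodgeGroup per F

end Pool.Agent.W2helper74.QF
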