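import Pool.Agent.W2helper74.QF.Defs
import Pool.Agent.H204R3.SP.Descent

/-!
# The group over `ℚ` given by the Hodge classes and the groups over `ℚ_ℓ` given by the Tate classes
-/

set_option autoImplicit false

namespace Pool.Agent.W2helper74.QF

open Module TensorProduct Pool.Agent.H204R3.GP Pool.Agent.H204R3.SP Pool.Agent.W516.MTD

variable {W T : Type} [AddCommGroup W] [Module ℚ W] [AddCommGroup T] [Module ℂ T]

section Tate

variable {k Γ V : Type} [Field k] [AddCommGroup V] [Module k V] [Group Γ]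
  {ρ : Representation k Γ V} {χ : Γ →* k} {m : ℕ}

/-- The Tate classes form a vector space. -/
def tateSub (ρ : Representation k Γ V) (χ : Γ →* k) (m : ℕ) :
    Submodule k (MultilinearMap k (fun _ : Fin m × Fin 2 => V) k) where
  carrier := {φ | IsTateTensor ρ χ m φ}
  add_mem' := by
    rintro φ ψ ⟨Δ, h1, h2⟩ ⟨Δ', h1', h2'⟩
    have := h1
    have := h1'
    refine ⟨Δ ⊓ Δ', inferInstance, fun s hs v => ?_⟩
    rw [MultilinearMap.add_apply, MultilinearMap.add_apply, h2 s hs.1, h2' s hs.2, mul_add]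
  zero_mem' := ⟨⊤, inferInstance, fun s _ v => by simp⟩
  smul_mem' := by
    rintro c φ ⟨Δ, h1, h2⟩
    refine ⟨Δ, h1, fun s hs v => ?_⟩
    rw [MultilinearMap.smul_apply, MultilinearMap.smul_apply, h2 s hs, smul_eq_mul, smul_eq_mul]
    ring

end Tate

section Group

variable {k Γ : Type} [Field k] [CharZero k] [Group Γ] [FiniteDimensional ℚ W] {per : W →+ T}
  {ρ : Representation k Γ (k ⊗[ℚ] W)} {χ : Γ →* k}

omit [AddCommGroup T] [Module ℂ T] in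
/-- Uniqueness of the extension of a form. -/
theorem ext_form {F : Type} [Field F] [CharZero F] {κ : Type} [Fintype κ] [DecidableEq κ]
    {Φ Ψ : MultilinearMap F (fun _ : κ => F ⊗[ℚ] W) F}
    (h : ∀ v : κ → W, Φ (fun l => (1 : F) ⊗ₜ[ℚ] v l) = Ψ (fun l => (1 : F) ⊗ₜ[ℚ] v l)) :
    Φ = Ψ := by
  let b := finBasis ℚ W
  refine Basis.ext_multilinear (fun _ => b.baseChange F) fun I => ?_
  have h1 : (fun l => b.baseChange F (I l)) = fun l => (1 : F) ⊗ₜ[ℚ] b (I l) := by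
    funext l
    rw [Basis.baseChange_apply]
  rw [h1]
  exact h _

/-- The extension of a combination of Hodge classes to a larger field. -/
theorem exists_ext {F : Type} [Field F] [CharZero F] [Algebra k F]
    {g : (F ⊗[ℚ] W) ≃ₗ[F] (F ⊗[ℚ] W)} {ν : F} {m : ℕ}
    (hg : ∀ ψ : MultilinearMap ℚ (fun _ : Fin m × Fin 2 => W) ℚ,
      IsHodgeTensor per ψ → ∀ Φ : MultilinearMap F (fun _ : Fin m × Fin 2 => F ⊗[ℚ] W) F,
      (∀ v : Fin m × Fin 2 → W, Φ (fun l => (1 : F) ⊗ₜ[ℚ] v l) = ((ψ v : ℚ) : F)) →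
        ∀ x, Φ (fun l => g (x l)) = ν ^ m * Φ x)
    {φ : MultilinearMap k (fun _ : Fin m × Fin 2 => k ⊗[ℚ] W) k}
    (h1 : IsHodgeCombination per φ) :
    ∃ Ψ : MultilinearMap F (fun _ : Fin m × Fin 2 => F ⊗[ℚ] W) F,
      (∀ v : Fin m × Fin 2 → W, Ψ (fun l => (1 : F) ⊗ₜ[ℚ] v l) =
        algebraMap k F (φ fun l => (1 : k) ⊗ₜ[ℚ] v l)) ∧
      ∀ x, Ψ (fun l => g (x l)) = ν ^ m * Ψ x := by
  classical
  let b := finBasis ℚ W
  unfold IsHodgeCombination at h1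
  induction h1 using Submodule.span_induction with
  | mem φ h2 =>
    obtain ⟨ψ, hψ, hφψ⟩ := h2
    have h3 : ∀ v : Fin m × Fin 2 → W, bcm (Ω := F) b ψ (fun l => (1 : F) ⊗ₜ[ℚ] v l)
        = ((ψ v : ℚ) : F) := fun v => by rw [bcm_one, eq_ratCast]
    refine ⟨bcm (Ω := F) b ψ, fun v => ?_, hg ψ hψ _ h3⟩
    rw [h3, hφψ, map_ratCast]
  | zero => exact ⟨0, fun v => by simp, fun x => by simp⟩
  | add φ₁ φ₂ _ _ ih1 ih2 =>
    obtain ⟨Ψ₁, e1, e2⟩ := ih1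
    obtain ⟨Ψ₂, f1, f2⟩ := ih2
    refine ⟨Ψ₁ + Ψ₂, fun v => ?_, fun x => ?_⟩
    · rw [MultilinearMap.add_apply, MultilinearMap.add_apply, e1, f1, map_add]
    · rw [MultilinearMap.add_apply, MultilinearMap.add_apply, e2, f2, mul_add]
  | smul c φ₁ _ ih1 =>
    obtain ⟨Ψ₁, e1, e2⟩ := ih1
    refine ⟨algebraMap k F c • Ψ₁, fun v => ?_, fun x => ?_⟩
    · rw [MultilinearMap.smul_apply, MultilinearMap.smul_apply, e1, smul_eq_mul, smul_eq_mul,
        map_mul]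
    · rw [MultilinearMap.smul_apply, MultilinearMap.smul_apply, e2, smul_eq_mul, smul_eq_mul]
      ring

/-- The groups given by the Tate classes and by the Hodge classes agree if Tate classes and
combinations of Hodge classes agree. -/
theorem group_eq
    (h : ∀ (m : ℕ) (φ : MultilinearMap k (fun _ : Fin m × Fin 2 => k ⊗[ℚ] W) k),
      IsTateTensor ρ χ m φ ↔ IsHodgeCombination per φ)
    (F : Type) [Field F] [CharZero F] [Algebra k F] :
    TateGroup ρ χ F = HodgeGroup per F := by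
  classical
  let b := finBasis ℚ W
  ext g
  constructor
  · rintro ⟨ν, hν, hg⟩
    refine ⟨ν, hν, fun m ψ hψ Φ hΦ x => ?_⟩
    have h1 : IsHodgeCombination per (bcm (Ω := k) b ψ) :=
      Submodule.subset_span ⟨ψ, hψ, fun v => by rw [bcm_one, eq_ratCast]⟩
    refine hg m _ ((h m _).2 h1) Φ (fun v => ?_) x
    rw [hΦ, bcm_one, eq_ratCast, map_ratCast]
  · rintro ⟨ν, hν, hg⟩
    refine ⟨ν, hν, fun m φ hφ Φ hΦ x => ?_⟩
    obtain ⟨Ψ, h2, h3⟩ := exists_ext (k := k) (hg m) ((h m φ).1 hφ)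
    have h4 : Φ = Ψ := ext_form fun v => by rw [hΦ, h2]
    rw [h4]
    exact h3 x

omit [FiniteDimensional ℚ W] in
/-- Combinations of Hodge classes are Tate classes (Deligne). -/
theorem tate_of_hodge (hD : Deligne per ρ χ) {m : ℕ}
    {φ : MultilinearMap k (fun _ : Fin m × Fin 2 => k ⊗[ℚ] W) k}
    (h : IsHodgeCombination per φ) : IsTateTensor ρ χ m φ := by
  have h1 : IsHodgeCombination per φ → φ ∈ tateSub ρ χ m := fun h => by
    refine Submodule.span_le.2 ?_ h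
    rintro φ' ⟨ψ, hψ, hφ⟩
    exact hD m ψ hψ φ' hφ
  exact h1 h

end Group

/-- From the conjecture of Mumford and Tate for all prime numbers to the common form. -/
theorem common_of [FiniteDimensional ℚ W] {Γ : Type} [Group Γ] {per : W →+ T}
    {ρ : ∀ (ℓ : ℕ) [Fact ℓ.Prime], Representation ℚ_[ℓ] Γ (ℚ_[ℓ] ⊗[ℚ] W)}
    {χ : ∀ (ℓ : ℕ) [Fact ℓ.Prime], Γ →* ℚ_[ℓ]} {ℓ₀ : ℕ}
    (hD : ∀ (ℓ : ℕ) [Fact ℓ.Prime], ℓ₀ ≤ ℓ → Deligne per (ρ ℓ) (χ ℓ))
    (h : ∀ (ℓ : ℕ) [Fact ℓ.Prime], ℓ₀ ≤ ℓ → ∀ (m : ℕ)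
      (φ : MultilinearMap ℚ_[ℓ] (fun _ : Fin m × Fin 2 => ℚ_[ℓ] ⊗[ℚ] W) ℚ_[ℓ]),
      IsTateTensor (ρ ℓ) (χ ℓ) m φ → IsHodgeCombination per φ) :
    HasCommonForm per ρ χ ℓ₀ := by
  intro ℓ _ hℓ
  have h1 : ∀ (m : ℕ) (φ : MultilinearMap ℚ_[ℓ] (fun _ : Fin m × Fin 2 => ℚ_[ℓ] ⊗[ℚ] W) ℚ_[ℓ]),
      IsTateTensor (ρ ℓ) (χ ℓ) m φ ↔ IsHodgeCombination per φ :=
    fun m φ => ⟨h ℓ hℓ m φ, tate_of_hodge (hD ℓ hℓ)⟩
  exact ⟨h1, fun F _ _ _ => group_eq h1 F⟩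

end Pool.Agent.W2helper74.QF
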