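import Mathlib
import Pool.Agent.W2helper74.QF.Main
import Pool.Agent.W516.MT.AllFinal
import Pool.Agent.TH776.FM.MTDefs

/-!
# Common `ℚ`-form of the `ℓ`-adic monodromy groups of abelian varieties of any type, from the
# relations of length four between the roots of ONE Frobenius polynomial

Let `A` be any abelian variety over a number field embedded in the complex numbers (or over a
finitely generated field). There is no condition on the dimension and on the endomorphisms: factors of
type IV are allowed. Suppose that `A` has good reduction at ONE place, with residue field of `q`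
elements, such that the characteristic polynomial `P` of the Frobenius element (which does not depend
on `ℓ`)

* has no multiple roots;
* if `a b c d = ζ q ^ 2` for complex roots `a`, `b`, `c`, `d` of `P` and a root of unity `ζ`, then the
  four roots fall into two pairs with product `q`.

**Theorem.** For ALL prime numbers `ℓ ≥ ℓ₀` (for which the Frobenius element has the polynomial `P`; so
all `ℓ` which are prime to `q`), the `ℓ`-adic monodromy group comes from one algebraic group over `ℚ`
(`HasCommonForm`): the Tate classes in the spaces `(H^1)^{⊗ 2 m}(m)` are exactly the linear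
combinations over `ℚ_ℓ` of the Hodge classes, and the algebraic group over `ℚ_ℓ` which is defined by the
Tate classes is the base change of the algebraic group `G` over `ℚ` which is defined by the Hodge
classes: both have the same points over all extensions `F` of `ℚ_ℓ`. Up to connected components these are
the connected `ℓ`-adic monodromy group and the Mumford-Tate group; they are reductive and contain the
homotheties, so that they are determined by their invariants in these spaces.

The group need not be the Lefschetz group, and the Hodge classes need not be generated in degree two: for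
abelian varieties of Weil type of dimension greater than four the Weil classes do not contradict the
hypotheses. The theorems in the starting files for this conjecture give the Lefschetz group.

The hypotheses in `IsAbelianVariety` are known properties of abelian varieties: the polarization, the
theorems of Faltings on endomorphisms and semisimplicity, the theorem of Deligne (Hodge classes are Tate
classes) and the theorem on centres (Vasiu, Ullmo and Yafaev). The main step is the theorem `mt_of_four` of
the starting files (`Pool.Agent.W516.MT.AllFinal`): the diagonal torus normalizes the Lie algebra of the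
endomorphisms which annihilate all Tate classes.

`HodgeGroup`, `TateGroup` and `HasCommonForm` are defined in `Pool.Agent.W2helper74.QF.Defs`,
`IsAbelianVariety` in `Pool.Agent.TH776.FM.MTDefs`, `OnlyTrivialRelationsOfLengthFour` in
`Pool.Agent.W516.FourDefs`, `IsTateTensor` in `Pool.Agent.H204R3.GP.Defs`, `IsHodgeTensor` in
`Pool.Agent.H204R3.GP.MTDefs`, and `IsHodgeCombination` in `Pool.Agent.W516.MT.Defs`.
-/

set_option autoImplicit false

namespace Pool.Agent.W2helper74.QF.OneFrobeniusPolynomial

open TensorProduct Polynomial Pool.Agent.H204R3.GP Pool.Agent.W516.MTD Pool.Agent.W516.FT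
  Pool.Agent.TH776.FM Pool.Agent.W2helper74.QF

/-- **Common form from one Frobenius polynomial.** `W = H_1(A, ℚ)` with its inclusion `per` in the
tangent space `T` and the form `ω₀` of a polarization; for all prime numbers `ℓ`, `ρ ℓ` is the action of
the Galois group `Γ` on the rational Tate module `ℚ_ℓ ⊗ W`, `χ ℓ` the cyclotomic character and `ω ℓ` the
Weil pairing. If the Frobenius elements at one place have a characteristic polynomial without multiple
roots and without nontrivial relations of length four, then the `ℓ`-adic monodromy groups have a common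
form over `ℚ` for all `ℓ ≥ ℓ₀`. -/
theorem result {W T Γ : Type} [AddCommGroup W] [Module ℚ W] [FiniteDimensional ℚ W]
    [AddCommGroup T] [Module ℂ T] [Group Γ] (per : W →+ T) (ω₀ : W →ₗ[ℚ] W →ₗ[ℚ] ℚ)
    (ρ : ∀ (ℓ : ℕ) [Fact ℓ.Prime], Representation ℚ_[ℓ] Γ (ℚ_[ℓ] ⊗[ℚ] W))
    (χ : ∀ (ℓ : ℕ) [Fact ℓ.Prime], Γ →* ℚ_[ℓ])
    (ω : ∀ (ℓ : ℕ) [Fact ℓ.Prime], ℚ_[ℓ] ⊗[ℚ] W →ₗ[ℚ_[ℓ]] ℚ_[ℓ] ⊗[ℚ] W →ₗ[ℚ_[ℓ]] ℚ_[ℓ]) (ℓ₀ : ℕ)
    (hA : ∀ (ℓ : ℕ) [Fact ℓ.Prime], ℓ₀ ≤ ℓ → IsAbelianVariety per ω₀ (ρ ℓ) (χ ℓ) (ω ℓ))
    (q : ℕ) (P : ℚ[X]) (hP : P.Separable) (hfour : OnlyTrivialRelationsOfLengthFour P q)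
    (hγ : ∀ (ℓ : ℕ) [Fact ℓ.Prime], ℓ₀ ≤ ℓ → ∃ γ : Γ, χ ℓ γ = q ∧
      (ρ ℓ γ).charpoly = P.map (algebraMap ℚ ℚ_[ℓ])) :
    HasCommonForm per ρ χ ℓ₀ := by
  refine common_of (fun ℓ _ hℓ => (hA ℓ hℓ).deligne) fun ℓ _ hℓ m φ hφ => ?_
  have h := hA ℓ hℓ
  obtain ⟨γ, hχ, hc⟩ := hγ ℓ hℓ
  exact Pool.Agent.W516.MTM.mt_of_four per (ρ ℓ) (χ ℓ) ω₀ (ω ℓ) h.hodge
    (fun u v => by rw [h.compatible, eq_ratCast]) h.similitude h.deligne h.rational h.alt h.nondeg
    h.semisimple h.faltings h.centres γ hχ hP hc hfour m φ hφ

end Pool.Agent.W2helper74.QF.OneFrobeniusPolynomial
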